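import Pool.Agent.Helper93.HV.VC

/-!
# Rows V2I and V2S of the sheet Helper95/HV
-/

set_option autoImplicit false

namespace Pool.Agent.Helper93.HV

open MeasureTheory Filter Pool.Agent.Helper95.PW Pool.Agent.Helper95.LN Pool.Agent.Helper95.CF
open Pool.Agent.Helper95.HV Pool.Agent.Helper53.LN
open Pool.Agent.Helper14.PW
open Pool.Agent.Helper82.PN (pgb_tri)

/-- near pairs -/
theorem b1 (h4 : ST_KK) {n M : ℕ} {X : Fin M → R3} {d K ρ : ℝ} (hd : 0 < d)
    (hS : Sep X d) {g : R3 → ℝ} (hg : Scale g K ρ) {x : Cf n} (hD : Dist X x) :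
    ∑ i, (∑ k, ∑ l, (if k < l then
      sw X (3 / 2 * d) x i k * sw X (3 / 2 * d) x i l *
        (e2 g x k l + e2 g x l k - 2 * c2 g x k l) else 0)) ≤
      324 * (K ^ 2 / ρ ^ 2) * Rem (d / 8) x +
        324 * (K ^ 2 / ρ ^ 2) * (16 / d) * ∑ i, cnt X (3 / 2 * d) x i ^ 2 := by
  have hb : 0 < d / 8 := by positivity
  set A : ℝ := 324 * (K ^ 2 / ρ ^ 2) with hA
  have hA0 : 0 ≤ A := by positivity
  set t : Fin n → Fin n → ℝ := fun k l =>
    if k < l then 1 / nr (x k - x l) - Kf (d / 8) (x k - x l) else 0 with ht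
  have ht0 : ∀ k l, 0 ≤ t k l := by
    intro k l
    rw [ht]
    dsimp only
    split_ifs with h
    · have := (h4 (d / 8) (x k - x l) hb).2.1 (hD.1 k l h.ne)
      linarith
    · exact le_rfl
  have key : ∀ i k l, (if k < l then sw X (3 / 2 * d) x i k * sw X (3 / 2 * d) x i l *
        (e2 g x k l + e2 g x l k - 2 * c2 g x k l) else 0) ≤
      A * (sw X (3 / 2 * d) x i k * t k l) +
      A * (16 / d) * (sw X (3 / 2 * d) x i k * sw X (3 / 2 * d) x i l) := by
    intro i k l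
    have s1 := sw_nonneg X (3 / 2 * d) x i k
    have s2 := sw_nonneg X (3 / 2 * d) x i l
    have s3 := sw_le X (3 / 2 * d) x i l
    have s4 : 0 ≤ sw X (3 / 2 * d) x i k * sw X (3 / 2 * d) x i l := mul_nonneg s1 s2
    have s5 : 0 ≤ A * (16 / d) := by positivity
    split_ifs with h
    · have hr0 : nr (x k - x l) ≠ 0 := hD.1 k l h.ne
      have hr : 0 < nr (x k - x l) := lt_of_le_of_ne (VIR_nr0 _) (Ne.symm hr0)
      have hK := (h4 (d / 8) (x k - x l) hb).2.2.2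
      have hK2 : 2 / (d / 8) = 16 / d := by
        field_simp
        norm_num
      have htk : t k l = 1 / nr (x k - x l) - Kf (d / 8) (x k - x l) := by
        rw [ht]
        dsimp only
        rw [if_pos h]
      have h1 : 1 / nr (x k - x l) ≤ t k l + 16 / d := by
        rw [htk, ← hK2]
        linarith
      have h2 : e2 g x k l + e2 g x l k - 2 * c2 g x k l ≤ A * (1 / nr (x k - x l)) := by
        rw [← e2_add]
        exact hv_pair hg hr
      have h6 : e2 g x k l + e2 g x l k - 2 * c2 g x k l ≤ A * (t k l + 16 / d) :=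
        h2.trans (mul_le_mul_of_nonneg_left h1 hA0)
      have h7 := mul_le_mul_of_nonneg_left h6 s4
      refine h7.trans ?_
      have h8 : sw X (3 / 2 * d) x i k * sw X (3 / 2 * d) x i l * (A * t k l) ≤
          sw X (3 / 2 * d) x i k * 1 * (A * t k l) :=
        mul_le_mul_of_nonneg_right (mul_le_mul_of_nonneg_left s3 s1)
          (mul_nonneg hA0 (ht0 k l))
      linarith
    · have := mul_nonneg hA0 (mul_nonneg s1 (ht0 k l))
      have := mul_nonneg s5 s4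
      linarith
  have h9 : ∑ i, (∑ k, ∑ l, (if k < l then
      sw X (3 / 2 * d) x i k * sw X (3 / 2 * d) x i l *
        (e2 g x k l + e2 g x l k - 2 * c2 g x k l) else 0)) ≤
      ∑ i, ∑ k, ∑ l, (A * (sw X (3 / 2 * d) x i k * t k l) +
      A * (16 / d) * (sw X (3 / 2 * d) x i k * sw X (3 / 2 * d) x i l)) :=
    Finset.sum_le_sum fun i _ => Finset.sum_le_sum fun k _ => Finset.sum_le_sum fun l _ =>
      key i k l
  refine h9.trans ?_
  simp only [Finset.sum_add_distrib, ← Finset.mul_sum]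
  have e1 : ∑ i, cnt X (3 / 2 * d) x i ^ 2 =
      ∑ i, ∑ k, sw X (3 / 2 * d) x i k * ∑ l, sw X (3 / 2 * d) x i l := by
    refine Finset.sum_congr rfl fun i _ => ?_
    rw [← Finset.sum_mul, pow_two]
    rfl
  have e2 : ∑ i, ∑ k, sw X (3 / 2 * d) x i k * ∑ l, t k l ≤ Rem (d / 8) x := by
    rw [Finset.sum_comm]
    unfold Rem
    refine Finset.sum_le_sum fun k _ => ?_
    rw [← Finset.sum_mul]
    have h10 : 0 ≤ ∑ l, t k l := Finset.sum_nonneg fun l _ => ht0 k l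
    calc _ ≤ 1 * ∑ l, t k l := mul_le_mul_of_nonneg_right (VIR_le1 hd hS x k) h10
      _ = _ := one_mul _
  rw [e1]
  have e3 := mul_le_mul_of_nonneg_left e2 hA0
  linarith

theorem van2 {n M : ℕ} {X : Fin M → R3} {d : ℝ} (hd : 0 < d) (hS : Sep X d) {g : R3 → ℝ}
    (hout : ∀ y, (∀ j, d / 2 < nr (y - X j)) → ∀ i, pd i g y = 0) {x : Cf n} {k : Fin n}
    {i : Fin M} (h1 : nr (x k - X i) < 3 / 2 * d) (h2 : d / 2 < nr (x k - X i)) (m : Fin 3) :
    pd m g (x k) = 0 := by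
  refine hout _ (fun j => ?_) m
  by_cases hj : j = i
  · rw [hj]
    exact h2
  · have h3 := hS j i hj
    have h4 := pgb_tri (X j) (X i) (x k)
    linarith

/-- far charges -/
theorem b2 {n M : ℕ} {X : Fin M → R3} {d K ρ C3 : ℝ} (hd : 0 < d) (hρ : 0 < ρ) (hC3 : 0 < C3)
    (hS : Sep X d) {g : R3 → ℝ} (hg : Scale g K ρ) (Z : Fin M → ℝ)
    (hout : ∀ y, (∀ j, d / 2 < nr (y - X j)) → ∀ i, pd i g y = 0)
    (x : Cf n) {e : Fin M → ℝ} (he : ∀ i m y, nr (y - X i) ≤ d → |farE d X Z x i m y| ≤ e i)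
    (hF : ∀ (i : Fin M) (k : Fin n), nr (x k - X i) ≤ d / 2 →
      |(∑ l, if nr (x l - X i) < 3 / 2 * d then 0 else
        Tq (x k - x l) (gv g (x k)) (gv g (x k))) -
      ∑ j, if j = i then 0 else Z j * Tq (x k - X j) (gv g (x k)) (gv g (x k))| ≤
        C3 * K ^ 2 * e i) :
    ∑ i, ∑ k, sw X (3 / 2 * d) x i k * Fk d X Z g x i k ≤
      (C3 * K ^ 2 + 9 * (K ^ 2 / ρ)) / 2 * (∑ i, e i ^ 2 + ∑ i, cnt X (3 / 2 * d) x i ^ 2) := by
  have he0 : ∀ i, 0 ≤ e i := by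
    intro i
    refine le_trans (abs_nonneg _) (he i 0 (X i) ?_)
    rw [sub_self]
    have : nr (0 : R3) = 0 := by simp [nr]
    rw [this]
    exact hd.le
  set P : ℝ := C3 * K ^ 2 + 9 * (K ^ 2 / ρ) with hP
  have hP0 : 0 ≤ P := by positivity
  have key : ∀ i k, sw X (3 / 2 * d) x i k * Fk d X Z g x i k ≤
      sw X (3 / 2 * d) x i k * (P * e i) := by
    intro i k
    by_cases h : nr (x k - X i) < 3 / 2 * d
    · refine mul_le_mul_of_nonneg_left ?_ (sw_nonneg X (3 / 2 * d) x i k)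
      by_cases h2 : nr (x k - X i) ≤ d / 2
      · rw [Fk_eq]
        have q1 := (abs_le.1 (hF i k h2)).2
        have hm : ∀ m, |gq g (x k) m * farE d X Z x i m (x k)| ≤ 3 * (K ^ 2 / ρ) * e i := by
          intro m
          rw [abs_mul]
          exact mul_le_mul (hv_gq_le hg _ _) (he i m _ (by linarith)) (abs_nonneg _)
            (by positivity)
        have q2 : -(9 * (K ^ 2 / ρ) * e i) ≤ ∑ m, gq g (x k) m * farE d X Z x i m (x k) := by
          rw [Fin.sum_univ_three]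
          linarith [(abs_le.1 (hm 0)).1, (abs_le.1 (hm 1)).1, (abs_le.1 (hm 2)).1]
        rw [hP]
        linarith
      · push Not at h2
        have h3 := van2 hd hS hout h h2
        have h4 : Fk d X Z g x i k = 0 := by
          unfold Fk
          simp [e2_0 h3, n2_0 h3]
        rw [h4]
        exact mul_nonneg hP0 (he0 i)
    · unfold sw
      rw [if_neg h]
      simp
  have h6 : ∑ i, ∑ k, sw X (3 / 2 * d) x i k * Fk d X Z g x i k ≤
      ∑ i, ∑ k, sw X (3 / 2 * d) x i k * (P * e i) :=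
    Finset.sum_le_sum fun i _ => Finset.sum_le_sum fun k _ => key i k
  refine h6.trans ?_
  rw [← Finset.sum_add_distrib, Finset.mul_sum]
  refine Finset.sum_le_sum fun i _ => ?_
  rw [← Finset.sum_mul]
  have e1 : ∑ k, sw X (3 / 2 * d) x i k = cnt X (3 / 2 * d) x i := rfl
  rw [e1]
  nlinarith [mul_nonneg hP0 (sq_nonneg (e i - cnt X (3 / 2 * d) x i))]

/-- the second derivative without the own nuclei -/
theorem core (hNB : ST_NBZ) (hFF : ST_FFZ) (hFG : ST_FGZ) (hDI : ST_DIP) (hKK : ST_KK) :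
    ∀ d : ℝ, 0 < d → d ≤ 1 → ∃ C : ℝ, 0 < C ∧ ∀ (z K ρ : ℝ) (n M : ℕ)
      (X : Fin M → R3) (Z : Fin M → ℝ) (g : R3 → ℝ) (x : Cf n), Dat d z n X Z →
      0 < ρ → ρ ≤ d → Scale g K ρ →
      (∀ y, (∀ j, d / 2 < nr (y - X j)) → ∀ i, pd i g y = 0) → Dist X x →
      D2 X Z g x + ∑ i, ∑ k, sw X (3 / 2 * d) x i k * (Z i * n2 X g x k i) ≤
        C * (K ^ 2 / ρ ^ 2) * (z ^ 2 * M + Dn (d / 8) X Z x + Rem (d / 8) x) := by
  intro d hd hd1
  obtain ⟨C1, hC1, k1⟩ := hNB d hd hd1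
  obtain ⟨C2, hC2, k2⟩ := hFF d hd hd1
  obtain ⟨C3, hC3, k3⟩ := hFG d hd hd1
  obtain ⟨C4, hC4, k4⟩ := hDI d hd hd1
  refine ⟨324 + 324 * (16 / d) * C1 + (C3 + 9) / 2 * (C1 + C2) + 2 * C4 * C1, by positivity, ?_⟩
  intro z K ρ n M X Z g x hDat hρ hρd hg hout hD
  have hS := hDat.sep
  have q1 := k1 z n M X Z x hDat
  obtain ⟨e, he, q2⟩ := k2 z n M X Z x hDat
  have he0 : ∀ i, 0 ≤ e i := by
    intro i
    refine le_trans (abs_nonneg _) (he i 0 (X i) ?_)
    rw [sub_self]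
    have : nr (0 : R3) = 0 := by simp [nr]
    rw [this]
    exact hd.le
  have p1 := b1 hKK hd hS hg hD
  have p2 := b2 hd hρ hC3 hS hg Z hout x he (fun i k hik =>
    k3 n M X Z x i (e i) K (gv g (x k)) (gv g (x k)) (x k) hS (fun m y => he i m y)
      (fun m => hg.d1 m _) (fun m => hg.d1 m _) hik)
  have p3 := k4 n M X x (fun k => gv g (x k)) K hS (fun k m => hg.d1 m _)
    (fun k hk => funext fun m => hout _ hk m)
  have hid := D2_id hd hS Z hout x
  have p3' : -(∑ k, ∑ l, (if k < l ∧ d < nr (x k - x l) then c2 g x k l else 0)) ≤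
      C4 * K ^ 2 * ∑ i, cnt X (3 / 2 * d) x i ^ 2 := p3
  set S := ∑ i, cnt X (3 / 2 * d) x i ^ 2 with hSd
  set E := ∑ i, e i ^ 2 with hE
  set R := Rem (d / 8) x with hR
  set W := z ^ 2 * M + Dn (d / 8) X Z x with hW
  set D := K ^ 2 / ρ ^ 2 with hDD
  have hS0 : 0 ≤ S := Finset.sum_nonneg fun i _ => sq_nonneg _
  have hE0 : 0 ≤ E := Finset.sum_nonneg fun i _ => sq_nonneg _
  have hW0 : 0 ≤ W := by
    have := VIR_Dn (d / 8) X Z x
    rw [hW]
    positivity
  have hR0 : 0 ≤ R := by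
    rw [hR]
    unfold Rem
    refine Finset.sum_nonneg fun k _ => Finset.sum_nonneg fun l _ => ?_
    split_ifs with h
    · have := (hKK (d / 8) (x k - x l) (by positivity)).2.1 (hD.1 k l h.ne)
      linarith
    · exact le_rfl
  have hD0 : 0 ≤ D := by rw [hDD]; positivity
  have hρ1 : ρ ≤ 1 := hρd.trans hd1
  have hKD : K ^ 2 ≤ D := by
    rw [hDD, le_div_iff₀ (by positivity)]
    have h1 : ρ ^ 2 ≤ 1 := pow_le_one₀ hρ.le hρ1
    nlinarith [sq_nonneg K]
  have hKD2 : K ^ 2 / ρ ≤ D := by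
    rw [hDD]
    refine div_le_div_of_nonneg_left (sq_nonneg K) (by positivity) ?_
    nlinarith
  -- bounds
  have m2 : (C3 * K ^ 2 + 9 * (K ^ 2 / ρ)) / 2 * (E + S) ≤ (C3 + 9) / 2 * D * (E + S) := by
    refine mul_le_mul_of_nonneg_right ?_ (by positivity)
    have := mul_le_mul_of_nonneg_left hKD hC3.le
    linarith
  have m3 : C4 * K ^ 2 * S ≤ C4 * D * S :=
    mul_le_mul_of_nonneg_right (mul_le_mul_of_nonneg_left hKD hC4.le) hS0
  have hd16 : 0 ≤ 324 * D * (16 / d) := by positivity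
  have m1 : 324 * D * (16 / d) * S ≤ 324 * D * (16 / d) * (C1 * W) :=
    mul_le_mul_of_nonneg_left q1 hd16
  have m4 : (C3 + 9) / 2 * D * (E + S) ≤ (C3 + 9) / 2 * D * (C2 * W + C1 * W) :=
    mul_le_mul_of_nonneg_left (add_le_add q2 q1) (by positivity)
  have m5 : C4 * D * S ≤ C4 * D * (C1 * W) := mul_le_mul_of_nonneg_left q1 (by positivity)
  have f1 : 0 ≤ (324 * (16 / d) * C1 + (C3 + 9) / 2 * (C1 + C2) + 2 * C4 * C1) * (D * R) := by
    positivity
  have f2 : 0 ≤ 324 * (D * W) := by positivity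
  rw [hid]
  have e0 : (324 + 324 * (16 / d) * C1 + (C3 + 9) / 2 * (C1 + C2) + 2 * C4 * C1) * D * (W + R) =
      324 * D * R + 324 * D * (16 / d) * (C1 * W) + (C3 + 9) / 2 * D * (C2 * W + C1 * W) +
      2 * (C4 * D * (C1 * W)) + 324 * (D * W) +
      (324 * (16 / d) * C1 + (C3 + 9) / 2 * (C1 + C2) + 2 * C4 * C1) * (D * R) := by ring
  rw [e0]
  linarith

/-- away from the own nucleus -/
theorem own1 {n M : ℕ} {X : Fin M → R3} {g : R3 → ℝ} {K ρ : ℝ} (hg : Scale g K ρ) (hρ : 0 < ρ)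
    {x : Cf n} {k : Fin n} {i : Fin M} (h : ρ ≤ nr (x k - X i)) :
    -n2 X g x k i ≤ 39 * (K ^ 2 / ρ ^ 2) * (1 / nr (x k - X i)) := by
  set r := nr (x k - X i) with hr
  have hr0 : 0 < r := lt_of_lt_of_le hρ h
  have h1 : |Tq (x k - X i) (gv g (x k)) (gv g (x k))| ≤ 30 * K ^ 2 / r ^ 3 :=
    hv_Tq hr0 fun m => hg.d1 m _
  have h2 : |∑ m, gq g (x k) m * (x k m - X i m)| ≤ 3 * (3 * (K ^ 2 / ρ)) * r := by
    have := hv_dot (v := gq g (x k)) (ξ := x k - X i) (fun m => hv_gq_le hg _ m)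
    simpa using this
  have h3 : (∑ m, gq g (x k) m * (x k m - X i m)) / r ^ 3 ≤
      3 * (3 * (K ^ 2 / ρ)) * r / r ^ 3 :=
    div_le_div_of_nonneg_right (abs_le.1 h2).2 (by positivity)
  have h4 : 30 * K ^ 2 / r ^ 3 ≤ 30 * (K ^ 2 / ρ ^ 2) * (1 / r) := by
    have e1 : 30 * (K ^ 2 / ρ ^ 2) * (1 / r) = 30 * K ^ 2 / (ρ ^ 2 * r) := by
      field_simp
    rw [e1]
    refine div_le_div_of_nonneg_left (by positivity) (by positivity) ?_
    have h5 : ρ ^ 2 ≤ r ^ 2 := pow_le_pow_left₀ hρ.le h 2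
    nlinarith
  have h5 : 3 * (3 * (K ^ 2 / ρ)) * r / r ^ 3 ≤ 9 * (K ^ 2 / ρ ^ 2) * (1 / r) := by
    have e1 : 9 * (K ^ 2 / ρ ^ 2) * (1 / r) = 9 * K ^ 2 / (ρ * (ρ * r)) := by
      field_simp
    have e2 : 3 * (3 * (K ^ 2 / ρ)) * r / r ^ 3 = 9 * K ^ 2 / (ρ * (r * r)) := by
      field_simp
      ring
    rw [e1, e2]
    refine div_le_div_of_nonneg_left (by positivity) (by positivity) ?_
    refine mul_le_mul_of_nonneg_left ?_ hρ.le
    exact mul_le_mul_of_nonneg_right h hr0.le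
  have h6 : -n2 X g x k i = -Tq (x k - X i) (gv g (x k)) (gv g (x k)) +
      (∑ m, gq g (x k) m * (x k m - X i m)) / r ^ 3 := by
    unfold n2
    ring
  rw [h6]
  linarith [(abs_le.1 h1).1]

/-- sum over the own nuclei -/
theorem own2 {n M : ℕ} {d z c : ℝ} {X : Fin M → R3} {Z : Fin M → ℝ} {x : Cf n}
    (hDat : Dat d z n X Z) (hc : 0 ≤ c) (N : Fin n → Fin M → ℝ)
    (hN : ∀ k i, nr (x k - X i) < 3 / 2 * d →
      -N k i ≤ c * (if nr (x k - X i) < d then 1 / nr (x k - X i) else 0)) :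
    -∑ i, ∑ k, sw X (3 / 2 * d) x i k * (Z i * N k i) ≤ c * (z * ∑ k, near1 X d (x k)) := by
  have hz : 0 ≤ z := by linarith [hDat.z1]
  have key : ∀ i k, -(sw X (3 / 2 * d) x i k * (Z i * N k i)) ≤
      c * (z * (if nr (x k - X i) < d then 1 / nr (x k - X i) else 0)) := by
    intro i k
    have h0 : 0 ≤ (if nr (x k - X i) < d then 1 / nr (x k - X i) else 0) := by
      split_ifs
      · exact div_nonneg zero_le_one (VIR_nr0 _)
      · exact le_rfl
    by_cases h : nr (x k - X i) < 3 / 2 * d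
    · have hs : sw X (3 / 2 * d) x i k = 1 := by
        unfold sw
        rw [if_pos h]
      rw [hs, one_mul]
      have h1 := hN k i h
      have h2 : -(Z i * N k i) = Z i * -N k i := by ring
      rw [h2]
      have h3 := mul_le_mul_of_nonneg_left h1 (hDat.nuc.1 i)
      have h4 := mul_le_mul_of_nonneg_right (hDat.le i) (mul_nonneg hc h0)
      linarith
    · have hs : sw X (3 / 2 * d) x i k = 0 := by
        unfold sw
        rw [if_neg h]
      rw [hs, zero_mul, neg_zero]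
      exact mul_nonneg hc (mul_nonneg hz h0)
  simp only [← Finset.sum_neg_distrib]
  unfold near1
  rw [Finset.sum_comm, Finset.mul_sum, Finset.mul_sum]
  refine Finset.sum_le_sum fun k _ => ?_
  rw [Finset.mul_sum, Finset.mul_sum]
  exact Finset.sum_le_sum fun i _ => key i k

theorem n2_van {n M : ℕ} {d c : ℝ} {X : Fin M → R3} (hd : 0 < d) (hS : Sep X d) (hc : 0 ≤ c)
    {g : R3 → ℝ} {K ρ : ℝ} (hg : Scale g K ρ) (hρ : 0 < ρ)
    (hout : ∀ y, (∀ j, d / 2 < nr (y - X j)) → ∀ i, pd i g y = 0) {x : Cf n} {k : Fin n}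
    {i : Fin M} (h : ρ ≤ nr (x k - X i)) (h1 : nr (x k - X i) < 3 / 2 * d)
    (hcK : 39 * (K ^ 2 / ρ ^ 2) ≤ c) :
    -n2 X g x k i ≤ c * (if nr (x k - X i) < d then 1 / nr (x k - X i) else 0) := by
  by_cases h2 : nr (x k - X i) ≤ d / 2
  · rw [if_pos (by linarith)]
    exact (own1 hg hρ h).trans (mul_le_mul_of_nonneg_right hcK
      (div_nonneg zero_le_one (VIR_nr0 _)))
  · push Not at h2
    rw [n2_0 (van2 hd hS hout h1 h2), neg_zero]
    refine mul_nonneg hc ?_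
    split_ifs
    · exact div_nonneg zero_le_one (VIR_nr0 _)
    · exact le_rfl

/-- row V2S -/
theorem V2S (hNB : ST_NBZ) (hFF : ST_FFZ) (hFG : ST_FGZ) (hDI : ST_DIP) (hKK : ST_KK) :
    ST_V2S := by
  intro d hd hd1
  obtain ⟨C, hC, kk⟩ := core hNB hFF hFG hDI hKK d hd hd1
  refine ⟨C + 39, by positivity, ?_⟩
  intro z K ρ n M X Z g x hDat hK hρ hρd hg hin hout hD
  have h1 := kk z K ρ n M X Z g x hDat hρ hρd hg hout hD
  have hD0 : 0 ≤ K ^ 2 / ρ ^ 2 := by positivity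
  have h2 := own2 (x := x) hDat (c := 39 * (K ^ 2 / ρ ^ 2)) (by positivity) (n2 X g x)
    (fun k i hki => by
      by_cases h : nr (x k - X i) < ρ
      · rw [n2_0 (hin i _ h), neg_zero]
        refine mul_nonneg (by positivity) ?_
        split_ifs
        · exact div_nonneg zero_le_one (VIR_nr0 _)
        · exact le_rfl
      · exact n2_van hd hDat.sep (by positivity) hg hρ hout (not_lt.1 h) hki le_rfl)
  have hz : 0 ≤ z := by linarith [hDat.z1]
  have hN0 : 0 ≤ z * ∑ k, near1 X d (x k) := by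
    refine mul_nonneg hz (Finset.sum_nonneg fun k _ => ?_)
    unfold near1
    refine Finset.sum_nonneg fun j _ => ?_
    split_ifs
    · exact div_nonneg zero_le_one (VIR_nr0 _)
    · exact le_rfl
  have hW0 : 0 ≤ z ^ 2 * M + Dn (d / 8) X Z x + Rem (d / 8) x := by
    have := VIR_Dn (d / 8) X Z x
    have hR0 : 0 ≤ Rem (d / 8) x := by
      unfold Rem
      refine Finset.sum_nonneg fun k _ => Finset.sum_nonneg fun l _ => ?_
      split_ifs with h
      · have := (hKK (d / 8) (x k - x l) (by positivity)).2.1 (hD.1 k l h.ne)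
        linarith
      · exact le_rfl
    positivity
  unfold Loc
  have e0 : (C + 39) * K ^ 2 / ρ ^ 2 * (z ^ 2 * M + Dn (d / 8) X Z x + Rem (d / 8) x +
      z * ∑ k, near1 X d (x k)) =
      C * (K ^ 2 / ρ ^ 2) * (z ^ 2 * M + Dn (d / 8) X Z x + Rem (d / 8) x) +
      39 * (K ^ 2 / ρ ^ 2) * (z * ∑ k, near1 X d (x k)) +
      (39 * ((K ^ 2 / ρ ^ 2) * (z ^ 2 * M + Dn (d / 8) X Z x + Rem (d / 8) x)) +
      C * ((K ^ 2 / ρ ^ 2) * (z * ∑ k, near1 X d (x k)))) := by ring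
  rw [e0]
  have f1 : 0 ≤ 39 * ((K ^ 2 / ρ ^ 2) * (z ^ 2 * M + Dn (d / 8) X Z x + Rem (d / 8) x)) +
      C * ((K ^ 2 / ρ ^ 2) * (z * ∑ k, near1 X d (x k))) :=
    add_nonneg (mul_nonneg (by norm_num) (mul_nonneg hD0 hW0))
      (mul_nonneg hC.le (mul_nonneg hD0 hN0))
  linarith

theorem hess0 {g : R3 → ℝ} {a : R3} {ρ : ℝ} {c : Fin 3 → ℝ}
    (h : ∀ y, nr (y - a) < ρ → ∀ i, pd i g y = c i) {y : R3} (hy : nr (y - a) < ρ)
    (l i : Fin 3) : pd l (pd i g) y = 0 := by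
  have hc : Continuous fun w : R3 => nr (w - a) := by
    unfold nr
    fun_prop
  have h1 : ∀ᶠ w in nhds y, nr (w - a) < ρ := hc.continuousAt.eventually_lt_const hy
  have h2 : pd i g =ᶠ[nhds y] fun _ => c i := h1.mono fun w hw => h w hw i
  show fderiv ℝ (pd i g) y (Pi.single l 1) = 0
  rw [h2.fderiv_eq]
  simp

/-- the own nucleus cancels in the sum over the coordinates -/
theorem own3 {n M : ℕ} {X : Fin M → R3} {g : Fin 3 → R3 → ℝ} {ρ : ℝ} {x : Cf n} {k : Fin n}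
    {i : Fin M} (hin : ∀ m y, nr (y - X i) < ρ → ∀ a, pd a (g m) y = if a = m then 1 else 0)
    (h : nr (x k - X i) < ρ) (h0 : 0 < nr (x k - X i)) : ∑ m, n2 X (g m) x k i = 0 := by
  have hq : ∀ m a, gq (g m) (x k) a = 0 := by
    intro m a
    unfold gq
    refine Finset.sum_eq_zero fun l _ => ?_
    rw [hess0 (hin m) h l a, zero_mul]
  have hv : ∀ m a, gv (g m) (x k) a = if a = m then 1 else 0 := fun m a => hin m _ h a
  have hs := VIR_nrsq (x k - X i)
  unfold n2 Tq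
  simp only [hq, hv]
  set r := nr (x k - X i) with hr
  simp only [Fin.sum_univ_three]
  simp
  set p := x k 0 - X i 0
  set q := x k 1 - X i 1
  set s := x k 2 - X i 2
  have hs' : r ^ 2 = p ^ 2 + q ^ 2 + s ^ 2 := by
    rw [hs]
    rfl
  field_simp
  nlinarith [hs']

/-- row V2I -/
theorem V2I (hNB : ST_NBZ) (hFF : ST_FFZ) (hFG : ST_FGZ) (hDI : ST_DIP) (hKK : ST_KK) :
    ST_V2I := by
  intro d hd hd1
  obtain ⟨C, hC, kk⟩ := core hNB hFF hFG hDI hKK d hd hd1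
  refine ⟨3 * C + 117, by positivity, ?_⟩
  intro z K ρ n M X Z g x hDat hK hρ hρd hg hin hout hD
  have h1 := fun m => kk z K ρ n M X Z (g m) x hDat hρ hρd (hg m) (hout m) hD
  have hD0 : 0 ≤ K ^ 2 / ρ ^ 2 := by positivity
  have h2 := own2 (x := x) hDat (c := 117 * (K ^ 2 / ρ ^ 2)) (by positivity)
    (fun k i => ∑ m, n2 X (g m) x k i)
    (fun k i hki => by
      have hi0 : 0 ≤ (if nr (x k - X i) < d then 1 / nr (x k - X i) else 0) := by
        split_ifs
        · exact div_nonneg zero_le_one (VIR_nr0 _)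
        · exact le_rfl
      by_cases h : nr (x k - X i) < ρ
      · rw [own3 (fun m => hin m i) h (lt_of_le_of_ne (VIR_nr0 _) (Ne.symm (hD.2 k i))), neg_zero]
        exact mul_nonneg (by positivity) hi0
      · have h3 := fun m => n2_van hd hDat.sep (c := 39 * (K ^ 2 / ρ ^ 2)) (by positivity)
          (hg m) hρ (hout m) (not_lt.1 h) hki le_rfl
        rw [Fin.sum_univ_three]
        linarith [h3 0, h3 1, h3 2])
  have hz : 0 ≤ z := by linarith [hDat.z1]
  have hN0 : 0 ≤ z * ∑ k, near1 X d (x k) := by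
    refine mul_nonneg hz (Finset.sum_nonneg fun k _ => ?_)
    unfold near1
    refine Finset.sum_nonneg fun j _ => ?_
    split_ifs
    · exact div_nonneg zero_le_one (VIR_nr0 _)
    · exact le_rfl
  have hW0 : 0 ≤ z ^ 2 * M + Dn (d / 8) X Z x + Rem (d / 8) x := by
    have := VIR_Dn (d / 8) X Z x
    have hR0 : 0 ≤ Rem (d / 8) x := by
      unfold Rem
      refine Finset.sum_nonneg fun k _ => Finset.sum_nonneg fun l _ => ?_
      split_ifs with h
      · have := (hKK (d / 8) (x k - x l) (by positivity)).2.1 (hD.1 k l h.ne)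
        linarith
      · exact le_rfl
    positivity
  have e1 : ∑ i, ∑ k, sw X (3 / 2 * d) x i k * (Z i * ∑ m, n2 X (g m) x k i) =
      ∑ m, ∑ i, ∑ k, sw X (3 / 2 * d) x i k * (Z i * n2 X (g m) x k i) := by
    rw [Finset.sum_comm]
    rw [Finset.sum_comm (s := Finset.univ (α := Fin 3))]
    rw [Finset.sum_comm]
    refine Finset.sum_congr rfl fun i _ => ?_
    rw [Finset.sum_comm]
    refine Finset.sum_congr rfl fun k _ => ?_
    rw [Finset.mul_sum, Finset.mul_sum]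
  rw [e1] at h2
  rw [Fin.sum_univ_three] at h2 ⊢
  unfold Loc
  have e0 : (3 * C + 117) * K ^ 2 / ρ ^ 2 * (z ^ 2 * M + Dn (d / 8) X Z x + Rem (d / 8) x +
      z * ∑ k, near1 X d (x k)) =
      3 * (C * (K ^ 2 / ρ ^ 2) * (z ^ 2 * M + Dn (d / 8) X Z x + Rem (d / 8) x)) +
      117 * (K ^ 2 / ρ ^ 2) * (z * ∑ k, near1 X d (x k)) +
      (117 * ((K ^ 2 / ρ ^ 2) * (z ^ 2 * M + Dn (d / 8) X Z x + Rem (d / 8) x)) +
      3 * C * ((K ^ 2 / ρ ^ 2) * (z * ∑ k, near1 X d (x k)))) := by ring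
  rw [e0]
  have f1 : 0 ≤ 117 * ((K ^ 2 / ρ ^ 2) * (z ^ 2 * M + Dn (d / 8) X Z x + Rem (d / 8) x)) +
      3 * C * ((K ^ 2 / ρ ^ 2) * (z * ∑ k, near1 X d (x k))) :=
    add_nonneg (mul_nonneg (by norm_num) (mul_nonneg hD0 hW0))
      (mul_nonneg (by positivity) (mul_nonneg hD0 hN0))
  linarith [h1 0, h1 1, h1 2]

end Pool.Agent.Helper93.HV
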