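import Pool.Agent.Helper95.HV.Stmts
import Pool.Agent.Helper53.LN.VIR

/-!
# Rows V2I, V2S of the sheet Helper95/HV: analytic bounds
-/

set_option autoImplicit false

namespace Pool.Agent.Helper93.HV

open MeasureTheory Filter Pool.Agent.Helper95.PW Pool.Agent.Helper95.LN Pool.Agent.Helper95.CF
open Pool.Agent.Helper95.HV Pool.Agent.Helper53.LN
open Pool.Agent.Helper14.PW
open Pool.Agent.Helper82.PN (pgb_tri)

/-- Lipschitz bound from the partial derivatives -/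
theorem hv_lip {f : R3 → ℝ} (hf : ContDiff ℝ (⊤ : ℕ∞) f) {B : ℝ} (hB : ∀ i y, |pd i f y| ≤ B)
    (x y : R3) : |f x - f y| ≤ 3 * B * nr (x - y) := by
  have hB0 : 0 ≤ B := le_trans (abs_nonneg _) (hB 0 x)
  have h1 : ∀ w ∈ (Set.univ : Set R3), ‖fderiv ℝ f w‖ ≤ 3 * B := by
    intro w _
    refine ContinuousLinearMap.opNorm_le_bound _ (by positivity) fun v => ?_
    rw [poe_fderiv, Real.norm_eq_abs, Fin.sum_univ_three]
    have hm : ∀ i, |v i * pd i f w| ≤ ‖v‖ * B := fun i => by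
      rw [abs_mul]
      exact mul_le_mul (by rw [← Real.norm_eq_abs]; exact norm_le_pi_norm v i) (hB i w)
        (abs_nonneg _) (norm_nonneg _)
    refine (abs_add_three _ _ _).trans ?_
    linarith [hm 0, hm 1, hm 2]
  have h2 := Convex.norm_image_sub_le_of_norm_fderiv_le
    (fun w _ => hf.differentiable (by simp) w) h1 convex_univ (Set.mem_univ y) (Set.mem_univ x)
  rw [Real.norm_eq_abs] at h2
  refine h2.trans (mul_le_mul_of_nonneg_left ?_ (by positivity))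
  rw [pi_norm_le_iff_of_nonneg (VIR_nr0 _)]
  intro i
  rw [Real.norm_eq_abs]
  exact VIR_comp (x - y) i

theorem hv_dot {v ξ : R3} {V : ℝ} (hv : ∀ m, |v m| ≤ V) :
    |∑ m, v m * ξ m| ≤ 3 * V * nr ξ := by
  rw [Fin.sum_univ_three]
  have h : ∀ m, |v m * ξ m| ≤ V * nr ξ := fun m => by
    rw [abs_mul]
    exact mul_le_mul (hv m) (VIR_comp ξ m) (abs_nonneg _) (le_trans (abs_nonneg _) (hv m))
  refine (abs_add_three _ _ _).trans ?_
  linarith [h 0, h 1, h 2]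

theorem hv_dot2 {v w : R3} {V : ℝ} (hv : ∀ m, |v m| ≤ V) (hw : ∀ m, |w m| ≤ V) :
    |∑ m, v m * w m| ≤ 3 * V ^ 2 := by
  rw [Fin.sum_univ_three]
  have h : ∀ m, |v m * w m| ≤ V ^ 2 := fun m => by
    rw [abs_mul, pow_two]
    exact mul_le_mul (hv m) (hw m) (abs_nonneg _) (le_trans (abs_nonneg _) (hv m))
  refine (abs_add_three _ _ _).trans ?_
  linarith [h 0, h 1, h 2]

theorem hv_Tq {ξ v : R3} {V : ℝ} (hξ : 0 < nr ξ) (hv : ∀ m, |v m| ≤ V) :
    |Tq ξ v v| ≤ 30 * V ^ 2 / nr ξ ^ 3 := by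
  unfold Tq
  have h1 := hv_dot (ξ := ξ) hv
  have h2 := hv_dot2 hv hv
  set S : ℝ := ∑ m, v m * ξ m with hS
  have h3 : |3 * S * S / nr ξ ^ 5| ≤ 27 * V ^ 2 / nr ξ ^ 3 := by
    rw [abs_div, abs_of_pos (pow_pos hξ 5), div_le_div_iff₀ (by positivity) (by positivity)]
    have h4 : |3 * S * S| = 3 * |S| ^ 2 := by
      rw [abs_mul, abs_mul, abs_of_pos (by norm_num : (0 : ℝ) < 3)]
      ring
    have h5 : |S| ^ 2 ≤ (3 * V * nr ξ) ^ 2 := pow_le_pow_left₀ (abs_nonneg _) h1 2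
    rw [h4]
    have h6 : 0 < nr ξ ^ 3 := by positivity
    have h7 := mul_le_mul_of_nonneg_right h5 h6.le
    nlinarith
  have h8 : |(∑ m, v m * v m) / nr ξ ^ 3| ≤ 3 * V ^ 2 / nr ξ ^ 3 := by
    rw [abs_div, abs_of_pos (pow_pos hξ 3)]
    exact div_le_div_of_nonneg_right h2 (by positivity)
  refine (abs_sub _ _).trans ?_
  have e1 : 30 * V ^ 2 / nr ξ ^ 3 = 27 * V ^ 2 / nr ξ ^ 3 + 3 * V ^ 2 / nr ξ ^ 3 := by ring
  rw [e1]
  exact add_le_add h3 h8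

theorem hv_gq_le {g : R3 → ℝ} {K ρ : ℝ} (hS : Scale g K ρ) (y : R3) (i : Fin 3) :
    |gq g y i| ≤ 3 * (K ^ 2 / ρ) := by
  have hK : 0 ≤ K := le_trans (abs_nonneg _) (hS.d1 0 y)
  have hK2 : 0 ≤ K / ρ := le_trans (abs_nonneg _) (hS.d2 0 0 y)
  unfold gq
  rw [Fin.sum_univ_three]
  have h : ∀ l, |pd l (pd i g) y * pd l g y| ≤ K ^ 2 / ρ := fun l => by
    rw [abs_mul]
    refine (mul_le_mul (hS.d2 l i y) (hS.d1 l y) (abs_nonneg _) hK2).trans (le_of_eq (by ring))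
  refine (abs_add_three _ _ _).trans ?_
  linarith [h 0, h 1, h 2]

theorem hv_gv_lip {g : R3 → ℝ} {K ρ : ℝ} (hS : Scale g K ρ) (x y : R3) (l : Fin 3) :
    |pd l g x - pd l g y| ≤ 3 * (K / ρ) * nr (x - y) :=
  hv_lip (poe_pd_cd hS.sm l) (fun i w => hS.d2 i l w) x y

theorem hv_gq_lip {g : R3 → ℝ} {K ρ : ℝ} (hS : Scale g K ρ) (x y : R3) (i : Fin 3) :
    |gq g x i - gq g y i| ≤ 18 * (K ^ 2 / ρ ^ 2) * nr (x - y) := by
  have hK : 0 ≤ K := le_trans (abs_nonneg _) (hS.d1 0 y)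
  have hK2 : 0 ≤ K / ρ := le_trans (abs_nonneg _) (hS.d2 0 0 y)
  have hn := VIR_nr0 (x - y)
  unfold gq
  rw [← Finset.sum_sub_distrib, Fin.sum_univ_three]
  have h : ∀ l, |pd l (pd i g) x * pd l g x - pd l (pd i g) y * pd l g y| ≤
      6 * (K ^ 2 / ρ ^ 2) * nr (x - y) := fun l => by
    have e1 : pd l (pd i g) x * pd l g x - pd l (pd i g) y * pd l g y =
        (pd l (pd i g) x - pd l (pd i g) y) * pd l g x +
          pd l (pd i g) y * (pd l g x - pd l g y) := by ring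
    rw [e1]
    refine (abs_add_le _ _).trans ?_
    rw [abs_mul, abs_mul]
    have h1 : |pd l (pd i g) x - pd l (pd i g) y| ≤ 3 * (K / ρ ^ 2) * nr (x - y) :=
      hv_lip (poe_pd_cd (poe_pd_cd hS.sm i) l) (fun j w => hS.d3 j l i w) x y
    have h2 := mul_le_mul h1 (hS.d1 l x) (abs_nonneg _) (le_trans (abs_nonneg _) h1)
    have h3 := mul_le_mul (hS.d2 l i y) (hv_gv_lip hS x y l) (abs_nonneg _) hK2
    refine (add_le_add h2 h3).trans (le_of_eq (by ring))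
  refine (abs_add_three _ _ _).trans ?_
  linarith [h 0, h 1, h 2]

/-- near pairs -/
theorem hv_pair {g : R3 → ℝ} {K ρ : ℝ} (hS : Scale g K ρ) {x y : R3} (hx : 0 < nr (x - y)) :
    Tq (x - y) (gv g x - gv g y) (gv g x - gv g y) -
      (∑ i, (gq g x i - gq g y i) * (x i - y i)) / nr (x - y) ^ 3 ≤
      324 * (K ^ 2 / ρ ^ 2) * (1 / nr (x - y)) := by
  have h1 : |Tq (x - y) (gv g x - gv g y) (gv g x - gv g y)| ≤
      30 * (3 * (K / ρ) * nr (x - y)) ^ 2 / nr (x - y) ^ 3 :=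
    hv_Tq hx fun m => hv_gv_lip hS x y m
  have h2 : |∑ i, (gq g x i - gq g y i) * (x i - y i)| ≤
      3 * (18 * (K ^ 2 / ρ ^ 2) * nr (x - y)) * nr (x - y) := by
    have := hv_dot (v := fun i => gq g x i - gq g y i) (ξ := x - y)
      (fun m => hv_gq_lip hS x y m)
    simpa using this
  have h3 : -(3 * (18 * (K ^ 2 / ρ ^ 2) * nr (x - y)) * nr (x - y) / nr (x - y) ^ 3) ≤
      (∑ i, (gq g x i - gq g y i) * (x i - y i)) / nr (x - y) ^ 3 := by
    rw [← neg_div]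
    exact div_le_div_of_nonneg_right (abs_le.1 h2).1 (by positivity)
  have e1 : 30 * (3 * (K / ρ) * nr (x - y)) ^ 2 / nr (x - y) ^ 3 +
      3 * (18 * (K ^ 2 / ρ ^ 2) * nr (x - y)) * nr (x - y) / nr (x - y) ^ 3 =
      324 * (K ^ 2 / ρ ^ 2) * (1 / nr (x - y)) := by
    field_simp
    ring
  linarith [(abs_le.1 h1).2]

end Pool.Agent.Helper93.HV
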