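import Pool.Agent.Helper93.HV.VA

/-!
# Rows V2I, V2S of the sheet Helper95/HV: the second derivative without the own nuclei
-/

set_option autoImplicit false

namespace Pool.Agent.Helper93.HV

open MeasureTheory Filter Pool.Agent.Helper95.PW Pool.Agent.Helper95.LN Pool.Agent.Helper95.CF
open Pool.Agent.Helper95.HV Pool.Agent.Helper53.LN
open Pool.Agent.Helper14.PW
open Pool.Agent.Helper82.PN (pgb_tri)

/-- second derivative of the potential of the electron `l` at the electron `k` -/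
noncomputable def e2 {n : ℕ} (g : R3 → ℝ) (x : Cf n) (k l : Fin n) : ℝ :=
  Tq (x k - x l) (gv g (x k)) (gv g (x k)) -
    (∑ i, gq g (x k) i * (x k i - x l i)) / nr (x k - x l) ^ 3

/-- the same for a nucleus -/
noncomputable def n2 {n M : ℕ} (X : Fin M → R3) (g : R3 → ℝ) (x : Cf n) (k : Fin n)
    (j : Fin M) : ℝ :=
  Tq (x k - X j) (gv g (x k)) (gv g (x k)) -
    (∑ i, gq g (x k) i * (x k i - X j i)) / nr (x k - X j) ^ 3

/-- cross term -/
noncomputable def c2 {n : ℕ} (g : R3 → ℝ) (x : Cf n) (k l : Fin n) : ℝ :=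
  Tq (x k - x l) (gv g (x k)) (gv g (x l))

theorem e2_self {n : ℕ} (g : R3 → ℝ) (x : Cf n) (k : Fin n) : e2 g x k k = 0 := by
  have h : nr (0 : R3) = 0 := by simp [nr]
  unfold e2 Tq
  simp [h]

theorem e2_add {n : ℕ} (g : R3 → ℝ) (x : Cf n) (k l : Fin n) :
    Tq (x k - x l) (gv g (x k) - gv g (x l)) (gv g (x k) - gv g (x l)) -
      (∑ i, (gq g (x k) i - gq g (x l) i) * (x k i - x l i)) / nr (x k - x l) ^ 3 =
    e2 g x k l + e2 g x l k - 2 * c2 g x k l := by
  unfold e2 c2 Tq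
  rw [VIR_sym (x l) (x k)]
  simp only [Fin.sum_univ_three, Pi.sub_apply]
  ring

theorem D2_eq {n M : ℕ} (X : Fin M → R3) (Z : Fin M → ℝ) (g : R3 → ℝ) (x : Cf n) :
    D2 X Z g x = ∑ k, (∑ l, e2 g x k l - ∑ j, Z j * n2 X g x k j) -
      2 * ∑ k, ∑ l, (if k < l then c2 g x k l else 0) := by
  have e1 := VIR_pairs (e2 g x) (e2_self g x)
  rw [Finset.sum_sub_distrib, ← e1]
  unfold D2
  have e3 : ∑ k, ∑ j, Z j * ((∑ i, gq g (x k) i * (x k i - X j i)) / nr (x k - X j) ^ 3 -
      Tq (x k - X j) (gv g (x k)) (gv g (x k))) = -∑ k, ∑ j, Z j * n2 X g x k j := by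
    simp only [← Finset.sum_neg_distrib]
    refine Finset.sum_congr rfl fun k _ => Finset.sum_congr rfl fun j _ => ?_
    unfold n2
    ring
  have e4 : ∑ k, ∑ l, (if k < l then
      Tq (x k - x l) (gv g (x k) - gv g (x l)) (gv g (x k) - gv g (x l)) -
      (∑ i, (gq g (x k) i - gq g (x l) i) * (x k i - x l i)) / nr (x k - x l) ^ 3 else 0) =
      ∑ k, ∑ l, (if k < l then e2 g x k l + e2 g x l k else 0) -
        2 * ∑ k, ∑ l, (if k < l then c2 g x k l else 0) := by
    rw [Finset.mul_sum, ← Finset.sum_sub_distrib]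
    refine Finset.sum_congr rfl fun k _ => ?_
    rw [Finset.mul_sum, ← Finset.sum_sub_distrib]
    refine Finset.sum_congr rfl fun l _ => ?_
    split_ifs
    · rw [e2_add]
    · ring
  rw [e3, e4]
  ring

theorem gq0 {g : R3 → ℝ} {y : R3} (h : ∀ i, pd i g y = 0) (i : Fin 3) : gq g y i = 0 := by
  unfold gq
  simp [h]

theorem gv0 {g : R3 → ℝ} {y : R3} (h : ∀ i, pd i g y = 0) (i : Fin 3) : gv g y i = 0 := h i

theorem e2_0 {n : ℕ} {g : R3 → ℝ} {x : Cf n} {k : Fin n} (h : ∀ i, pd i g (x k) = 0)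
    (l : Fin n) : e2 g x k l = 0 := by
  unfold e2 Tq
  simp [gq0 h, gv0 h]

theorem n2_0 {n M : ℕ} {X : Fin M → R3} {g : R3 → ℝ} {x : Cf n} {k : Fin n}
    (h : ∀ i, pd i g (x k) = 0) (j : Fin M) : n2 X g x k j = 0 := by
  unfold n2 Tq
  simp [gq0 h, gv0 h]

theorem c2_0l {n : ℕ} {g : R3 → ℝ} {x : Cf n} {k : Fin n} (h : ∀ i, pd i g (x k) = 0)
    (l : Fin n) : c2 g x k l = 0 := by
  unfold c2 Tq
  simp [gv0 h]

theorem c2_0r {n : ℕ} {g : R3 → ℝ} {x : Cf n} {l : Fin n} (h : ∀ i, pd i g (x l) = 0)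
    (k : Fin n) : c2 g x k l = 0 := by
  unfold c2 Tq
  simp [gv0 h]

/-- far part -/
noncomputable def Fk {n M : ℕ} (d : ℝ) (X : Fin M → R3) (Z : Fin M → ℝ) (g : R3 → ℝ) (x : Cf n)
    (i : Fin M) (k : Fin n) : ℝ :=
  (∑ l, if nr (x l - X i) < 3 / 2 * d then 0 else e2 g x k l) -
    ∑ j, if j = i then 0 else Z j * n2 X g x k j

theorem far2 {n M : ℕ} (d : ℝ) (X : Fin M → R3) (Z : Fin M → ℝ) (g : R3 → ℝ) (x : Cf n)
    (k : Fin n) (i : Fin M) :
    ∑ l, e2 g x k l - ∑ j, Z j * n2 X g x k j =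
      ∑ l, sw X (3 / 2 * d) x i l * e2 g x k l + Fk d X Z g x i k - Z i * n2 X g x k i := by
  have e2' : ∑ l, e2 g x k l = ∑ l, sw X (3 / 2 * d) x i l * e2 g x k l +
      ∑ l, (if nr (x l - X i) < 3 / 2 * d then 0 else e2 g x k l) := by
    rw [← Finset.sum_add_distrib]
    refine Finset.sum_congr rfl fun l _ => ?_
    unfold sw
    split_ifs <;> ring
  have e3 : ∑ j, Z j * n2 X g x k j = Z i * n2 X g x k i +
      ∑ j, (if j = i then 0 else Z j * n2 X g x k j) := by
    have h1 : ∀ j, Z j * n2 X g x k j = (if j = i then Z i * n2 X g x k i else 0) +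
        (if j = i then 0 else Z j * n2 X g x k j) := by
      intro j
      split_ifs with h
      · subst h
        ring
      · ring
    rw [Finset.sum_congr rfl (fun j _ => h1 j), Finset.sum_add_distrib]
    simp
  unfold Fk
  linarith

theorem Fk_eq {n M : ℕ} (d : ℝ) (X : Fin M → R3) (Z : Fin M → ℝ) (g : R3 → ℝ) (x : Cf n)
    (i : Fin M) (k : Fin n) :
    Fk d X Z g x i k = ((∑ l, if nr (x l - X i) < 3 / 2 * d then 0 else
        Tq (x k - x l) (gv g (x k)) (gv g (x k))) -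
      ∑ j, if j = i then 0 else Z j * Tq (x k - X j) (gv g (x k)) (gv g (x k))) -
      ∑ m, gq g (x k) m * farE d X Z x i m (x k) := by
  have e1 : ∑ m, gq g (x k) m * farE d X Z x i m (x k) =
      ∑ l, (if nr (x l - X i) < 3 / 2 * d then 0 else
        (∑ i, gq g (x k) i * (x k i - x l i)) / nr (x k - x l) ^ 3) -
        ∑ j, (if j = i then 0 else
          Z j * ((∑ i, gq g (x k) i * (x k i - X j i)) / nr (x k - X j) ^ 3)) := by
    unfold farE
    simp only [mul_sub, Finset.sum_sub_distrib, Finset.mul_sum]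
    congr 1
    · rw [Finset.sum_comm]
      refine Finset.sum_congr rfl fun l _ => ?_
      split_ifs
      · simp
      · simp only [Fin.sum_univ_three]
        ring
    · rw [Finset.sum_comm]
      refine Finset.sum_congr rfl fun j _ => ?_
      split_ifs
      · simp
      · simp only [Fin.sum_univ_three]
        ring
  have e2' : (∑ l, if nr (x l - X i) < 3 / 2 * d then 0 else e2 g x k l) =
      (∑ l, if nr (x l - X i) < 3 / 2 * d then 0 else
        Tq (x k - x l) (gv g (x k)) (gv g (x k))) -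
      ∑ l, (if nr (x l - X i) < 3 / 2 * d then 0 else
        (∑ i, gq g (x k) i * (x k i - x l i)) / nr (x k - x l) ^ 3) := by
    rw [← Finset.sum_sub_distrib]
    refine Finset.sum_congr rfl fun l _ => ?_
    split_ifs
    · simp
    · rfl
  have e3' : (∑ j, if j = i then 0 else Z j * n2 X g x k j) =
      (∑ j, if j = i then 0 else Z j * Tq (x k - X j) (gv g (x k)) (gv g (x k))) -
      ∑ j, (if j = i then 0 else
          Z j * ((∑ i, gq g (x k) i * (x k i - X j i)) / nr (x k - X j) ^ 3)) := by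
    rw [← Finset.sum_sub_distrib]
    refine Finset.sum_congr rfl fun j _ => ?_
    split_ifs
    · simp
    · unfold n2
      ring
  unfold Fk
  rw [e1, e2', e3']
  ring

theorem sw_eq {n M : ℕ} {X : Fin M → R3} {d : ℝ} (hd : 0 < d) (hS : Sep X d) {x : Cf n}
    {k : Fin n} {i : Fin M} (h : nr (x k - X i) ≤ d / 2) (j : Fin M) :
    sw X (3 / 2 * d) x j k = if j = i then 1 else 0 := by
  unfold sw
  by_cases hj : j = i
  · subst hj
    rw [if_pos (by linarith), if_pos rfl]
  · rw [if_neg hj, if_neg]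
    intro h2
    have h1 := hS j i hj
    have h3 := pgb_tri (X j) (X i) (x k)
    linarith

theorem cross {n M : ℕ} {X : Fin M → R3} {d : ℝ} (hd : 0 < d) (hS : Sep X d) {g : R3 → ℝ}
    (hout : ∀ y, (∀ j, d / 2 < nr (y - X j)) → ∀ i, pd i g y = 0) (x : Cf n) (k l : Fin n) :
    c2 g x k l = (∑ i, sw X (3 / 2 * d) x i k * sw X (3 / 2 * d) x i l) * c2 g x k l +
      (if d < nr (x k - x l) then c2 g x k l else 0) := by
  by_cases hk : ∀ j, d / 2 < nr (x k - X j)
  · rw [c2_0l (hout _ hk)]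
    simp
  by_cases hl : ∀ j, d / 2 < nr (x l - X j)
  · rw [c2_0r (hout _ hl)]
    simp
  push Not at hk hl
  obtain ⟨i, hi⟩ := hk
  obtain ⟨i', hi'⟩ := hl
  have e1 : ∑ j, sw X (3 / 2 * d) x j k * sw X (3 / 2 * d) x j l = if i = i' then 1 else 0 := by
    simp only [sw_eq hd hS hi, sw_eq hd hS hi']
    rcases eq_or_ne i i' with rfl | h
    · simp
    · simp [h, h.symm]
  rw [e1]
  by_cases h : i = i'
  · subst h
    have h3 := pgb_tri (x k) (x l) (X i)
    rw [VIR_sym (X i) (x k), VIR_sym (X i) (x l)] at h3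
    rw [if_pos rfl, if_neg (by linarith)]
    ring
  · have h1 := hS i i' h
    have h3 := pgb_tri (X i) (X i') (x k)
    have h4 := pgb_tri (x k) (X i') (x l)
    rw [VIR_sym (x l) (x k)] at h4
    rw [if_neg h, if_pos (by linarith)]
    ring

theorem D2_id {n M : ℕ} {X : Fin M → R3} {d : ℝ} (hd : 0 < d) (hS : Sep X d) (Z : Fin M → ℝ)
    {g : R3 → ℝ} (hout : ∀ y, (∀ j, d / 2 < nr (y - X j)) → ∀ i, pd i g y = 0) (x : Cf n) :
    D2 X Z g x = ∑ i, (∑ k, ∑ l, (if k < l then
      sw X (3 / 2 * d) x i k * sw X (3 / 2 * d) x i l *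
        (e2 g x k l + e2 g x l k - 2 * c2 g x k l) else 0)) +
      ∑ i, ∑ k, sw X (3 / 2 * d) x i k * Fk d X Z g x i k -
      ∑ i, ∑ k, sw X (3 / 2 * d) x i k * (Z i * n2 X g x k i) -
      2 * ∑ k, ∑ l, (if k < l ∧ d < nr (x k - x l) then c2 g x k l else 0) := by
  rw [D2_eq]
  have eA : ∑ k, (∑ l, e2 g x k l - ∑ j, Z j * n2 X g x k j) =
      ∑ i, ∑ k, sw X (3 / 2 * d) x i k * (∑ l, e2 g x k l - ∑ j, Z j * n2 X g x k j) := by
    rw [Finset.sum_comm]
    refine Finset.sum_congr rfl fun k _ => ?_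
    rw [← Finset.sum_mul]
    by_cases h : ∀ j, d / 2 < nr (x k - X j)
    · have h1 : ∀ l, e2 g x k l = 0 := e2_0 (hout _ h)
      have h2 : ∀ j, n2 X g x k j = 0 := n2_0 (hout _ h)
      simp [h1, h2]
    · push Not at h
      obtain ⟨i, hi⟩ := h
      rw [VIR_one hd hS x k (i := i) (by linarith), one_mul]
  have e1 : ∀ i, ∑ k, ∑ l, (if k < l then
      sw X (3 / 2 * d) x i k * sw X (3 / 2 * d) x i l * (e2 g x k l + e2 g x l k) else 0) =
      ∑ k, ∑ l, sw X (3 / 2 * d) x i k * sw X (3 / 2 * d) x i l * e2 g x k l := by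
    intro i
    rw [← VIR_pairs (fun k l => sw X (3 / 2 * d) x i k * sw X (3 / 2 * d) x i l * e2 g x k l)
      (fun k => by simp only [e2_self, mul_zero])]
    refine Finset.sum_congr rfl fun k _ => Finset.sum_congr rfl fun l _ => ?_
    split_ifs
    · ring
    · rfl
  have eB : ∑ i, ∑ k, sw X (3 / 2 * d) x i k * (∑ l, e2 g x k l - ∑ j, Z j * n2 X g x k j) =
      ∑ i, (∑ k, ∑ l, (if k < l then
      sw X (3 / 2 * d) x i k * sw X (3 / 2 * d) x i l * (e2 g x k l + e2 g x l k) else 0)) +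
      ∑ i, ∑ k, sw X (3 / 2 * d) x i k * Fk d X Z g x i k -
      ∑ i, ∑ k, sw X (3 / 2 * d) x i k * (Z i * n2 X g x k i) := by
    rw [Finset.sum_congr rfl (fun i _ => e1 i), ← Finset.sum_add_distrib,
      ← Finset.sum_sub_distrib]
    refine Finset.sum_congr rfl fun i _ => ?_
    rw [← Finset.sum_add_distrib, ← Finset.sum_sub_distrib]
    refine Finset.sum_congr rfl fun k _ => ?_
    rw [far2 d X Z g x k i]
    have e3 : ∑ l, sw X (3 / 2 * d) x i k * sw X (3 / 2 * d) x i l * e2 g x k l =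
        sw X (3 / 2 * d) x i k * ∑ l, sw X (3 / 2 * d) x i l * e2 g x k l := by
      rw [Finset.mul_sum]
      exact Finset.sum_congr rfl fun l _ => by ring
    rw [e3]
    ring
  have eC : ∑ k, ∑ l, (if k < l then c2 g x k l else 0) =
      ∑ i, (∑ k, ∑ l, (if k < l then
        sw X (3 / 2 * d) x i k * sw X (3 / 2 * d) x i l * c2 g x k l else 0)) +
      ∑ k, ∑ l, (if k < l ∧ d < nr (x k - x l) then c2 g x k l else 0) := by
    rw [Finset.sum_comm (s := Finset.univ (α := Fin M)), ← Finset.sum_add_distrib]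
    refine Finset.sum_congr rfl fun k _ => ?_
    rw [Finset.sum_comm, ← Finset.sum_add_distrib]
    refine Finset.sum_congr rfl fun l _ => ?_
    by_cases h : k < l
    · simp only [h, if_true, true_and]
      rw [← Finset.sum_mul]
      exact cross hd hS hout x k l
    · simp [h]
  have eD : ∑ i, (∑ k, ∑ l, (if k < l then
      sw X (3 / 2 * d) x i k * sw X (3 / 2 * d) x i l *
        (e2 g x k l + e2 g x l k - 2 * c2 g x k l) else 0)) =
      ∑ i, (∑ k, ∑ l, (if k < l then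
      sw X (3 / 2 * d) x i k * sw X (3 / 2 * d) x i l * (e2 g x k l + e2 g x l k) else 0)) -
      2 * ∑ i, (∑ k, ∑ l, (if k < l then
        sw X (3 / 2 * d) x i k * sw X (3 / 2 * d) x i l * c2 g x k l else 0)) := by
    simp only [Finset.mul_sum, ← Finset.sum_sub_distrib]
    refine Finset.sum_congr rfl fun i _ => Finset.sum_congr rfl fun k _ =>
      Finset.sum_congr rfl fun l _ => ?_
    split_ifs
    · ring
    · ring
  rw [eA, eB, eC, eD]
  ring

end Pool.Agent.Helper93.HV
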